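import Pool.Agent.H752R3.Selection

/-!
Under CH there is a productively Hurewicz space (a subspace of the Cantor square) which is not
productively Menger.
-/

namespace Pool.Agent.Results.MP_c74059_gt.HurewiczNotMengerCH

open Set Filter Cardinal Pool.Agent.H752R3

universe u v

/-- `X` is productively Hurewicz: `X × Y` is Hurewicz for every Hurewicz space `Y`
(`Y` ranges over all topological spaces in a universe). -/
def ProductivelyHurewicz (X : Type u) [TopologicalSpace X] : Prop :=
  ∀ (Y : Type v) [TopologicalSpace Y], HurewiczSp Y → HurewiczSp (X × Y)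

/-- The characteristic function of the range of `psum f`. -/
noncomputable def chi (f : ℕ → ℕ) : ℕ → Bool := by
  classical exact fun m => decide (∃ n ∈ Finset.range (m + 1), psum f n = m)

theorem chi_eq_true {f : ℕ → ℕ} {m : ℕ} : chi f m = true ↔ ∃ n, psum f n = m := by
  simp only [chi, decide_eq_true_eq]
  constructor
  · rintro ⟨n, -, h⟩; exact ⟨n, h⟩
  · rintro ⟨n, h⟩
    refine ⟨n, Finset.mem_range.2 ?_, h⟩
    have := (psum_strictMono f).le_apply (x := n)
    omega

theorem continuous_chi : Continuous chi := by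
  classical
  apply continuous_pi
  intro m
  rw [continuous_bool_rng true]
  have : (fun f : ℕ → ℕ => chi f m) ⁻¹' {true} =
      ⋃ n ∈ Finset.range (m + 1), {f : ℕ → ℕ | psum f n = m} := by
    ext f
    simp [chi]
  rw [this]
  apply isClopen_biUnion_finset
  intro n _
  exact (isClopen_discrete ({m} : Set ℕ)).preimage
    ((continuous_apply n : Continuous fun x : ℕ → ℕ => x n).comp continuous_psum)

/-- Number of elements below `k`. -/
def cnt (k : ℕ) (q : ℕ → Bool) : ℕ := ∑ i ∈ Finset.range k, (if q i = true then 1 else 0)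

theorem continuous_cnt (k : ℕ) : Continuous (cnt k) := by
  unfold cnt
  apply continuous_finsetSum
  intro i _
  exact (continuous_of_discreteTopology (f := fun b : Bool => if b = true then 1 else 0)).comp
    (continuous_apply i : Continuous fun x : ℕ → Bool => x i)

theorem cnt_mono {k l : ℕ} (h : k ≤ l) (q : ℕ → Bool) : cnt k q ≤ cnt l q := by
  unfold cnt
  exact Finset.sum_le_sum_of_subset (Finset.range_mono h)

theorem cnt_chi_le {f : ℕ → ℕ} {k n : ℕ} (h : k ≤ psum f n) : cnt k (chi f) ≤ n := by
  classical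
  unfold cnt
  rw [← Finset.card_filter]
  have : (Finset.range k).filter (fun i => chi f i = true) ⊆ (Finset.range n).image (psum f) := by
    intro i hi
    obtain ⟨h1, h2⟩ := Finset.mem_filter.1 hi
    obtain ⟨m, rfl⟩ := chi_eq_true.1 h2
    refine Finset.mem_image.2 ⟨m, Finset.mem_range.2 ?_, rfl⟩
    have h3 := Finset.mem_range.1 h1
    exact (psum_strictMono f).lt_iff_lt.1 (lt_of_lt_of_le h3 h)
  calc _ ≤ _ := Finset.card_le_card this
    _ ≤ _ := Finset.card_image_le
    _ = n := Finset.card_range n

theorem lt_cnt_chi (f : ℕ → ℕ) (n : ℕ) : n < cnt (psum f n + 1) (chi f) := by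
  classical
  unfold cnt
  rw [← Finset.card_filter]
  have : (Finset.range (n + 1)).image (psum f) ⊆
      (Finset.range (psum f n + 1)).filter (fun i => chi f i = true) := by
    intro i hi
    obtain ⟨m, hm, rfl⟩ := Finset.mem_image.1 hi
    have h1 : m ≤ n := Nat.lt_succ_iff.1 (Finset.mem_range.1 hm)
    refine Finset.mem_filter.2 ⟨Finset.mem_range.2 ?_, chi_eq_true.2 ⟨m, rfl⟩⟩
    exact Nat.lt_succ_of_le ((psum_strictMono f).monotone h1)
  have h2 := Finset.card_le_card this
  rw [Finset.card_image_of_injective _ (psum_strictMono f).injective, Finset.card_range] at h2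
  omega

theorem not_finSupp_chi (f : ℕ → ℕ) : ¬ FinSupp (chi f) := by
  rintro ⟨k, hk⟩
  have h1 := hk (psum f k) (psum_strictMono f).le_apply
  rw [chi_eq_true.2 ⟨k, rfl⟩] at h1
  exact Bool.noConfusion h1

theorem finSupp_countable : {z : ℕ → Bool | FinSupp z}.Countable := by
  have : {z : ℕ → Bool | FinSupp z} = ⋃ k, range (extB k) := by
    ext z
    simp only [mem_ofPred_eq, mem_iUnion, mem_range]
    constructor
    · rintro ⟨k, hk⟩
      refine ⟨k, fun i => z i, ?_⟩
      ext m
      by_cases h : m < k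
      · simp [extB, h]
      · simp [extB, h, hk m (not_lt.1 h)]
    · rintro ⟨k, s, rfl⟩
      exact finSupp_extB k s
  rw [this]
  exact countable_iUnion fun k => Set.countable_range _

/-- Among the `2 n + 1` windows `[b j, b (j + 1))`, `n ≤ j ≤ 3 n`, one is missed. -/
theorem exists_missed {f d b : ℕ → ℕ} (hb : StrictMono b) {n : ℕ}
    (hf : b (3 * n + 1) ≤ psum f n) (hd : b (3 * n + 1) ≤ psum d n) :
    ∃ j, n ≤ j ∧ j ≤ 3 * n ∧ Misses (chi f, chi d) (b j) (b (j + 1)) := by
  classical
  by_contra hcon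
  push Not at hcon
  -- every window is hit
  have h1 : ∀ j ∈ Finset.Icc n (3 * n), ∃ p : Bool × ℕ, p.2 < n ∧
      b j ≤ (if p.1 then psum f p.2 else psum d p.2) ∧
      (if p.1 then psum f p.2 else psum d p.2) < b (j + 1) := by
    intro j hj
    obtain ⟨h2, h3⟩ := Finset.mem_Icc.1 hj
    have h4 := hcon j h2 h3
    unfold Misses at h4
    push Not at h4
    obtain ⟨m, hm1, hm2, hm3⟩ := h4
    have hle : b (j + 1) ≤ b (3 * n + 1) := hb.monotone (by omega)
    by_cases hm : chi f m = true
    · obtain ⟨i, rfl⟩ := chi_eq_true.1 hm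
      have hi : psum f i < psum f n := by omega
      exact ⟨(true, i), (psum_strictMono f).lt_iff_lt.1 hi, by simpa using hm1,
        by simpa using hm2⟩
    · have h5 : chi d m = true := by
        have := hm3 (by simpa using hm)
        simpa using this
      obtain ⟨i, rfl⟩ := chi_eq_true.1 h5
      have hi : psum d i < psum d n := by omega
      exact ⟨(false, i), (psum_strictMono d).lt_iff_lt.1 hi, by simpa using hm1,
        by simpa using hm2⟩
  choose! p hp1 hp2 hp3 using h1
  have hmaps : ∀ j ∈ Finset.Icc n (3 * n), p j ∈ (Finset.univ : Finset Bool) ×ˢ Finset.range n := by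
    intro j hj
    exact Finset.mem_product.2 ⟨Finset.mem_univ _, Finset.mem_range.2 (hp1 j hj)⟩
  obtain ⟨i, hi, j, hj, hij, heq⟩ := Finset.exists_ne_map_eq_of_card_lt_of_maps_to (by
    rw [Finset.card_product, Finset.card_univ, Fintype.card_bool, Finset.card_range,
      Nat.card_Icc]
    omega) hmaps
  have h2 := hp2 i hi
  have h3 := hp3 i hi
  have h4 := hp2 j hj
  have h5 := hp3 j hj
  rw [heq] at h2 h3
  rcases lt_or_gt_of_ne hij with h | h
  · have : b (i + 1) ≤ b j := hb.monotone h
    omega
  · have : b (j + 1) ≤ b i := hb.monotone h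
    omega

/-- **Under CH there is a subspace of the Cantor square which is productively Hurewicz (with
respect to all topological spaces) but not productively Menger: its product with some Menger set
of reals is not Menger.** -/
theorem result (CH : (ℵ₁ : Cardinal.{0}) = 𝔠) :
    ∃ X : Set ((ℕ → Bool) × (ℕ → Bool)), ProductivelyHurewicz.{0, v} X ∧
      ∃ M : Set (ℕ → Bool), MengerSp M ∧ ¬ MengerSp (X × M) := by
  classical
  obtain ⟨f, c, hub, hle, hmen⟩ := exists_generic_family CH
  have hne : Nonempty (ℵ₁ : Cardinal.{0}).ord.ToType := by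
    rw [← Cardinal.mk_ne_zero_iff, Cardinal.mk_ord_toType]
    exact (Cardinal.aleph_pos 1).ne'
  obtain ⟨e, he⟩ := exists_surjection_omega1 CH (α := ℕ → ℕ) (by simp)
  -- the dominating family
  have hd : ∀ a, ∃ d : ℕ → ℕ, ∀ a' ≤ a, ∀ᶠ n in atTop, c a' n ≤ d n ∧ e a' n ≤ d n := by
    intro a
    have hcount : (Set.Iic a).Countable := by
      rw [← Set.Iio_insert]
      exact (countable_Iio_omega1 a).insert a
    obtain ⟨t, ht⟩ := hcount.exists_eq_range ⟨a, le_refl a⟩
    refine ⟨fun n => (Finset.range (n + 1)).sup (fun i => max (c (t i) n) (e (t i) n)), ?_⟩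
    intro a' ha'
    have : a' ∈ Set.Iic a := ha'
    rw [ht] at this
    obtain ⟨i, rfl⟩ := this
    filter_upwards [eventually_ge_atTop i] with n hn
    have h1 := Finset.le_sup (f := fun i => max (c (t i) n) (e (t i) n))
      (Finset.mem_range.2 (Nat.lt_succ_of_le hn))
    exact ⟨(le_max_left _ _).trans h1, (le_max_right _ _).trans h1⟩
  choose d hd using hd
  let X : Set ((ℕ → Bool) × (ℕ → Bool)) :=
    range (fun a => (chi (f a), chi (d a))) ∪ {z | FinSupp z.1 ∧ FinSupp z.2}
  let M : Set (ℕ → Bool) := range fun a => chi (f a)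
  refine ⟨X, ?_, M, ?_, ?_⟩
  · -- productively Hurewicz
    intro Y _ hY
    refine productively_hurewicz X (fun z h1 h2 => Or.inr ⟨h1, h2⟩) ?_ Y hY
    intro b hb
    obtain ⟨a, ha⟩ := hub (fun n => b (3 * n + 1))
    have hex : ∀ i, ∃ n, i ≤ n ∧ b (3 * n + 1) ≤ c a n := fun i =>
      frequently_atTop.1 ha i
    choose N hN1 hN2 using hex
    refine ⟨N, fun i => 3 * N i, hN1, ?_⟩
    have hcnt : ((fun a => (chi (f a), chi (d a))) '' Set.Iio a ∪
        ({z : ℕ → Bool | FinSupp z} ×ˢ {z : ℕ → Bool | FinSupp z})).Countable :=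
      ((countable_Iio_omega1 a).image _).union (finSupp_countable.prod finSupp_countable)
    refine hcnt.mono ?_
    rintro x ⟨hx1 | hx1, hx2⟩
    · obtain ⟨a', rfl⟩ := hx1
      refine Or.inl ⟨a', ?_, rfl⟩
      by_contra hcon
      have haa' : a ≤ a' := not_lt.1 hcon
      apply hx2
      obtain ⟨K, hK⟩ := eventually_atTop.1 ((hle a a' haa').and (hd a' a haa'))
      filter_upwards [eventually_ge_atTop K] with i hi
      obtain ⟨h1, h2, -⟩ := hK (N i) (hi.trans (hN1 i))
      have h3 := le_psum (f a') (le_refl (N i))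
      have h4 := le_psum (d a') (le_refl (N i))
      have h5 := hN2 i
      exact exists_missed hb (by omega) (by omega)
    · exact Or.inr hx1
  · -- Menger
    intro U hU
    obtain ⟨F, hF1, hF2⟩ := menger_of_family f chi continuous_chi hmen U hU
    refine ⟨F, hF1, ?_⟩
    rw [eq_univ_iff_forall]
    intro z
    obtain ⟨n, hn⟩ := (hF2 z).exists
    exact mem_iUnion.2 ⟨n, hn⟩
  · -- the product is not Menger
    intro hmenger
    let V : ℕ → ℕ → Set (X × M) := fun n k =>
      {z | z.1.1.1 ≠ z.2.1} ∪ {z | n < cnt k z.1.1.2}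
    have hVo : ∀ n k, IsOpen (V n k) := by
      intro n k
      apply IsOpen.union
      · exact isOpen_ne_fun (continuous_fst.comp (continuous_subtype_val.comp continuous_fst))
          (continuous_subtype_val.comp continuous_snd)
      · have hc : Continuous fun z : X × M => cnt k z.1.1.2 := (continuous_cnt k).comp
          (continuous_snd.comp (continuous_subtype_val.comp continuous_fst))
        exact (isOpen_discrete (Set.Ioi n)).preimage hc
    obtain ⟨F, hF1, hF2⟩ := hmenger.frequently (fun n => range (V n)) (by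
      intro n
      refine ⟨?_, ?_⟩
      · rintro _ ⟨k, rfl⟩
        exact hVo n k
      · rw [eq_univ_iff_forall]
        rintro ⟨⟨⟨p, q⟩, hx⟩, ⟨_, a, rfl⟩⟩
        by_cases hp : p = chi (f a)
        · rcases hx with ⟨a', ha'⟩ | ⟨hx, -⟩
          · have hq : chi (d a') = q := congrArg Prod.snd ha'
            refine ⟨_, ⟨psum (d a') n + 1, rfl⟩, Or.inr ?_⟩
            show n < cnt (psum (d a') n + 1) q
            rw [← hq]
            exact lt_cnt_chi _ _
          · exact absurd (by rw [← hp]; exact hx) (not_finSupp_chi (f a))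
        · exact ⟨_, ⟨0, rfl⟩, Or.inl hp⟩)
    -- bound the indices
    have hg : ∀ n, ∃ g, ∀ z ∈ ⋃₀ F n, z.1.1.1 ≠ z.2.1 ∨ n < cnt g z.1.1.2 := by
      intro n
      obtain ⟨E, -, hE2, hE3⟩ : ∃ E ⊆ (Set.univ : Set ℕ), E.Finite ∧ V n '' E = F n := by
        have := Set.exists_subset_image_finite_and (f := V n) (s := Set.univ)
          (p := fun t => t = F n)
        obtain ⟨E', h1, h2, h3⟩ := this.1 ⟨F n, by rw [image_univ]; exact (hF1 n).1,
          (hF1 n).2, rfl⟩
        exact ⟨E', h1, h2, h3⟩
      obtain ⟨g, hg⟩ := hE2.bddAbove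
      refine ⟨g, ?_⟩
      rintro z ⟨u, hu, hz⟩
      rw [← hE3] at hu
      obtain ⟨k, hk, rfl⟩ := hu
      rcases hz with hz | hz
      · exact Or.inl hz
      · right
        have h1 : n < cnt k z.1.1.2 := hz
        exact lt_of_lt_of_le h1 (cnt_mono (hg hk) _)
    choose g hg using hg
    obtain ⟨a, ha⟩ := he g
    have h1 := hd a a (le_refl a)
    rw [ha] at h1
    obtain ⟨n, hn1, hn2⟩ := ((hF2 (⟨(chi (f a), chi (d a)), Or.inl ⟨a, rfl⟩⟩,
      ⟨chi (f a), a, rfl⟩)).and_eventually h1).exists
    rcases hg n _ hn1 with h2 | h2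
    · exact h2 rfl
    · have h3 : cnt (g n) (chi (d a)) ≤ n := by
        apply cnt_chi_le
        have := le_psum (d a) (le_refl n)
        omega
      have h4 : n < cnt (g n) (chi (d a)) := h2
      omega

end Pool.Agent.Results.MP_c74059_gt.HurewiczNotMengerCH
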